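import Pool.Agent.Lib.MP_640417_ag.Frob.Setup
import Pool.Agent.Lib.MP_640417_ag.IntRelation

/-!
# Ordinary places of type `(E, Φ)`
-/

namespace Pool.Agent.Lib.MP_640417_ag.Place

open Module Polynomial NumberField Pool.Agent.Lib.MP_640417_ag Pool.Agent.Lib.MP_640417_ag.Frob

open Classical in
/-- `φ` is a Frobenius element over `p` of an ordinary place of type `(E, Φ)`: its characteristic
polynomial is the minimal polynomial of an element `π` which generates the field `E`, and for some
`p`-adic absolute value of `AlgebraicClosure ℚ` the conjugates `ψ π` with `ψ ∈ Φ` have the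
absolute value of `p ^ a` and the other ones are units. -/
def OrdinaryPlace {E : Type} [Field E] [NumberField E] (Φ : Set (Emb E)) {Γ : Type} [Group Γ]
    [TopologicalSpace Γ] {F : Type} [Field F] [TopologicalSpace F] {V : Type} [AddCommGroup V]
    [Module F V] [FiniteDimensional F V] (ρ : H1Rep Γ F V) (φ : Γ) (p : ℕ) [Fact p.Prime] : Prop :=
  ∃ (a : ℕ) (P : ℤ[X]) (π : E) (v : AlgebraicClosure ℚ →+* PadicAlgCl p),
    IsFrobenius ρ φ p a P ∧ P.map (Int.castRingHom ℚ) = minpoly ℚ π ∧
    (minpoly ℚ π).natDegree = finrank ℚ E ∧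
    ∀ ψ : Emb E, ‖v (ψ π)‖ = if ψ ∈ Φ then ((p : ℝ) ^ a)⁻¹ else 1

end Pool.Agent.Lib.MP_640417_ag.Place
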